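import Pool.Agent.H12.HS.Targets
import Pool.Agent.H12.HS.Basic

/-!
# MP_eb1332_ag, module EVN: homomorphisms from `AA` to rings in which `x`, `y` are nilpotent
-/

namespace Pool.Agent.H76.HZ.EVN

open Pool.Agent.H12.HS

universe u

/-- evaluating the truncation of a polynomial at a nilpotent element -/
theorem eval₂_trunc_coe {R B : Type*} [CommRing R] [CommRing B] (φ : R →+* B) (b : B) (n : ℕ)
    (hb : b ^ n = 0) (p : Polynomial R) :
    Polynomial.eval₂ φ b (PowerSeries.trunc n (p : PowerSeries R)) = Polynomial.eval₂ φ b p := by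
  rw [PowerSeries.eval₂_trunc_eq_sum_range,
    Polynomial.eval₂_eq_sum_range' φ (n := max n (p.natDegree + 1))
      (lt_of_lt_of_le (Nat.lt_succ_self _) (le_max_right _ _))]
  simp only [Polynomial.coeff_coe]
  refine Finset.sum_subset ?_ ?_
  · intro i hi
    simp only [Finset.mem_range] at hi ⊢
    exact lt_of_lt_of_le hi (le_max_left _ _)
  · intro i _ hi
    simp only [Finset.mem_range, not_lt] at hi
    rw [← Nat.add_sub_cancel' hi, pow_add, hb]
    simp

/-- evaluation of power series at a nilpotent element -/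
noncomputable def evHom {R B : Type*} [CommRing R] [CommRing B] (φ : R →+* B) (b : B) (n : ℕ)
    (hb : b ^ n = 0) (hn : 0 < n) : PowerSeries R →+* B where
  toFun f := Polynomial.eval₂ φ b (PowerSeries.trunc n f)
  map_one' := by
    obtain ⟨m, rfl⟩ : ∃ m, n = m + 1 := ⟨n - 1, by omega⟩
    rw [PowerSeries.trunc_one]; simp
  map_mul' f g := by
    rw [← Polynomial.eval₂_mul, ← eval₂_trunc_coe φ b n hb
      (PowerSeries.trunc n f * PowerSeries.trunc n g), Polynomial.coe_mul,
      PowerSeries.trunc_trunc_mul_trunc]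
  map_zero' := by simp
  map_add' f g := by
    rw [map_add, Polynomial.eval₂_add]

theorem evHom_apply {R B : Type*} [CommRing R] [CommRing B] (φ : R →+* B) (b : B) (n : ℕ)
    (hb : b ^ n = 0) (hn : 0 < n) (f : PowerSeries R) :
    evHom φ b n hb hn f = Polynomial.eval₂ φ b (PowerSeries.trunc n f) := rfl

theorem evHom_C {R B : Type*} [CommRing R] [CommRing B] (φ : R →+* B) (b : B) (n : ℕ)
    (hb : b ^ n = 0) (hn : 0 < n) (r : R) : evHom φ b n hb hn (PowerSeries.C r) = φ r := by
  rw [evHom_apply, ← Polynomial.coe_C, eval₂_trunc_coe φ b n hb]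
  simp

theorem evHom_X {R B : Type*} [CommRing R] [CommRing B] (φ : R →+* B) (b : B) (n : ℕ)
    (hb : b ^ n = 0) (hn : 0 < n) : evHom φ b n hb hn (PowerSeries.X : PowerSeries R) = b := by
  rw [evHom_apply, ← Polynomial.coe_X, eval₂_trunc_coe φ b n hb]
  simp

/-- existence -/
theorem exists_P2 (Ω B : Type u) [Field Ω] [CommRing B] (j : Ω →+* B) (x y : B)
    (hx : IsNilpotent x) (hy : IsNilpotent y) :
    ∃ β : P2 Ω →+* B, (∀ c, β (cst c) = j c) ∧ β (px Ω) = x ∧ β (py Ω) = y := by
  obtain ⟨m, hm⟩ := hx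
  obtain ⟨n, hn⟩ := hy
  have hm' : x ^ (m + 1) = 0 := by rw [pow_succ, hm, zero_mul]
  have hn' : y ^ (n + 1) = 0 := by rw [pow_succ, hn, zero_mul]
  refine ⟨evHom (evHom j x (m + 1) hm' (Nat.succ_pos m)) y (n + 1) hn' (Nat.succ_pos n),
    fun c => ?_, ?_, ?_⟩
  · rw [cst, evHom_C, evHom_C]
  · rw [px, evHom_C, evHom_X]
  · rw [py, evHom_X]

theorem evn : T_EVN.{u} := by
  intro Ω B _ _ j x y z hx hy hz
  refine ⟨?_, ?_⟩
  · obtain ⟨β, h1, h2, h3⟩ := exists_P2 Ω B j x y hx hy
    have hg : β (g4 Ω) = z * z := by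
      rw [g4, map_add, map_pow, map_pow, h2, h3, ← hz, sq]
    refine ⟨{ toFun := fun a => β a.re + β a.im * z
              map_one' := by
                rw [QuadraticAlgebra.re_one, QuadraticAlgebra.im_one]; simp
              map_mul' := fun a b => by
                rw [QuadraticAlgebra.re_mul, QuadraticAlgebra.im_mul]
                simp only [map_add, map_mul, hg, zero_mul, add_zero]
                ring
              map_zero' := by simp
              map_add' := fun a b => by
                rw [QuadraticAlgebra.re_add, QuadraticAlgebra.im_add]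
                simp only [map_add]
                ring }, ?_, ?_, ?_, ?_⟩
    · intro c
      rw [algebraMap_AA]
      simp [h1]
    · simp [ax, h2]
    · simp [ay, h3]
    · simp [az]
  · intro β β' hc hx' hy' hz' nx ny
    obtain ⟨m, hm⟩ := nx
    obtain ⟨n, hn⟩ := ny
    have hxN : β (ax Ω) ^ (m + n) = 0 := by rw [pow_add, hm, zero_mul]
    have hyN : β (ay Ω) ^ (m + n) = 0 := by rw [pow_add, hn, mul_zero]
    have hP : ∀ p : P2 Ω, β (algebraMap (P2 Ω) (AA Ω) p) = β' (algebraMap (P2 Ω) (AA Ω) p) := by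
      intro p
      obtain ⟨q1, q2, hq⟩ := trunc_P2 (m + n) p
      rw [hq]
      simp only [map_add, map_mul, map_sum, map_pow, ← ax_eq, ← ay_eq, ← algebraMap_AA']
      rw [← hx', ← hy', hxN, hyN]
      simp only [hc, zero_mul]
    ext a
    rw [AA_eq a]
    simp only [map_add, map_mul, hP, hz']

end Pool.Agent.H76.HZ.EVN
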