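import Pool.Agent.H12.HS.Targets
import Pool.Agent.H12.HS.Basic

/-!
# MP_eb1332_ag, module FAM: cofiniteness of the family
-/

namespace Pool.Agent.H76.HZ.FAM

open Pool.Agent.H12.HS

universe u

section
variable {Ω : Type u} [Field Ω]

/-- coordinates -/
def vec (a : AA Ω) : Fin 2 → P2 Ω := ![a.re, a.im]
/-- coordinates of `z a` -/
noncomputable def vecz (a : AA Ω) : Fin 2 → P2 Ω := ![g4 Ω * a.im, a.re]

theorem vec_mul (a b : AA Ω) : vec (a * b) = a.re • vec b + a.im • vecz b := by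
  funext i
  fin_cases i
  · change (a * b).re = a.re * b.re + a.im * (g4 Ω * b.im)
    rw [QuadraticAlgebra.re_mul]; ring
  · change (a * b).im = a.re * b.im + a.im * b.re
    rw [QuadraticAlgebra.im_mul]; ring

theorem vec_add (a b : AA Ω) : vec (a + b) = vec a + vec b := by
  funext i
  fin_cases i
  · rfl
  · rfl

theorem vec_zero : vec (0 : AA Ω) = 0 := by
  funext i
  fin_cases i
  · rfl
  · rfl

theorem vec_sum {ι : Type*} (s : Finset ι) (F : ι → AA Ω) :
    vec (∑ i ∈ s, F i) = ∑ i ∈ s, vec (F i) := by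
  classical
  induction s using Finset.induction_on with
  | empty => simp [vec_zero]
  | insert a s ha ih => rw [Finset.sum_insert ha, Finset.sum_insert ha, vec_add, ih]

theorem vec_inj {a b : AA Ω} (h : vec a = vec b) : a = b := by
  apply QuadraticAlgebra.ext
  · exact congrFun h 0
  · exact congrFun h 1

/-- generators over `P2` of the ideal -/
noncomputable def GG {N : Type} (f : N → AA Ω) (q : N × Fin 2) : Fin 2 → P2 Ω :=
  if q.2 = 0 then vec (f q.1) else vecz (f q.1)

theorem vec_mem {N : Type} [Fintype N] (f : N → AA Ω) (a : AA Ω) :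
    a ∈ Ideal.span (Set.range f) ↔ vec a ∈ Submodule.span (P2 Ω) (Set.range (GG f)) := by
  rw [Ideal.mem_span_range_iff_exists_fun, Submodule.mem_span_range_iff_exists_fun]
  constructor
  · rintro ⟨c, hc⟩
    refine ⟨fun q => if q.2 = 0 then (c q.1).re else (c q.1).im, ?_⟩
    rw [← hc, vec_sum, Fintype.sum_prod_type]
    refine Finset.sum_congr rfl fun i _ => ?_
    rw [vec_mul, Fin.sum_univ_two]
    simp [GG]
  · rintro ⟨c, hc⟩
    refine ⟨fun i => ⟨c (i, 0), c (i, 1)⟩, ?_⟩
    apply vec_inj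
    rw [← hc, vec_sum, Fintype.sum_prod_type]
    refine Finset.sum_congr rfl fun i _ => ?_
    rw [vec_mul, Fin.sum_univ_two]
    simp [GG]

end

theorem cof_fam (hF : T_FINM.{u}) {Ω Ω' : Type u} [Field Ω] [Field Ω']
    (ι : PowerSeries Ω →+* Ω') (hι : Function.Injective ι) (N : Type) [Fintype N]
    (f f' : N → AA Ω) (hf : Cof (Ideal.span (Set.range f))) :
    Cof (Ideal.span (Set.range fun i => mapA (ι.comp PowerSeries.C) (f i) +
      algebraMap Ω' (AA Ω') (ι PowerSeries.X) * mapA (ι.comp PowerSeries.C) (f' i))) := by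
  obtain ⟨M0, hx, hy⟩ := hf
  obtain ⟨M, hM⟩ := hF Ω Ω' ι hι (Fin 2) (N × Fin 2) (GG f) (GG f') 0 (by
    refine ⟨M0, fun ρ => ?_⟩
    have h1 : ∀ (p : P2 Ω), p • ρ = vec ((⟨p, 0⟩ : AA Ω) * ⟨ρ 0, ρ 1⟩) := by
      intro p
      rw [vec_mul, zero_smul, add_zero]
      congr 1
      funext i
      fin_cases i <;> rfl
    constructor
    · rw [h1, ← vec_mem, ← ax_pow]
      exact Ideal.mul_mem_right _ _ hx
    · rw [h1, ← vec_mem, ← ay_pow]
      exact Ideal.mul_mem_right _ _ hy)
  have hG : (fun i : N × Fin 2 =>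
      (mapP (ι.comp PowerSeries.C) ∘ GG f i) +
      cst (ι PowerSeries.X) • (mapP (ι.comp PowerSeries.C) ∘ GG f' i) +
      cst (ι PowerSeries.X ^ 2) • (mapP (ι.comp PowerSeries.C) ∘ (0 : N × Fin 2 → Fin 2 → P2 Ω) i))
      = GG (fun i => mapA (ι.comp PowerSeries.C) (f i) +
      algebraMap Ω' (AA Ω') (ι PowerSeries.X) * mapA (ι.comp PowerSeries.C) (f' i)) := by
    funext ⟨i, e⟩ l
    rw [algebraMap_AA]
    fin_cases e
    · fin_cases l
      · simp [GG, vec, mapA_re, QuadraticAlgebra.re_mul]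
      · simp [GG, vec, mapA_im, QuadraticAlgebra.im_mul]
    · fin_cases l
      · simp [GG, vecz, mapA_im, QuadraticAlgebra.im_mul, mapP_g4]
        ring
      · simp [GG, vecz, mapA_re, QuadraticAlgebra.re_mul]
  rw [hG] at hM
  refine ⟨M, ?_, ?_⟩
  · rw [vec_mem]
    have h1 := (hM ![1, 0]).1
    convert h1 using 1
    rw [ax_pow]
    funext i
    fin_cases i <;> simp [vec]
  · rw [vec_mem]
    have h1 := (hM ![1, 0]).2
    convert h1 using 1
    rw [ay_pow]
    funext i
    fin_cases i <;> simp [vec]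

end Pool.Agent.H76.HZ.FAM
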