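import Pool.Agent.H76.HZ.FAMA
import Pool.Agent.H76.HZ.FAMC

/-!
# MP_eb1332_ag, module FAM: the family principle
-/

namespace Pool.Agent.H76.HZ.FAM

open Pool.Agent.H12.HS

universe u

/-- the free algebra over `Ω[[t]]` defined by the family -/
theorem exists_V (hFL : T_FLAT.{u}) {Ω A : Type u} [Field Ω] [CommRing A] [Algebra Ω A] (N : Type)
    [Fintype N] (f f' : N → A)
    (hrel : ∀ g : N → A, ∑ i, g i * f i = 0 → ∃ G : N → PowerSeries A,
      (∀ i, PowerSeries.constantCoeff (G i) = g i) ∧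
      ∑ i, G i * (PowerSeries.C (f i) + PowerSeries.X * PowerSeries.C (f' i)) = 0)
    (d : ℕ) (b : Module.Basis (Fin d) Ω (A ⧸ Ideal.span (Set.range f))) (β : Fin d → A)
    (hβ : ∀ j, Ideal.Quotient.mk (Ideal.span (Set.range f)) (β j) = b j) :
    ∃ (V : Type u) (_ : CommRing V) (_ : Algebra (PowerSeries Ω) V) (q : PowerSeries A →+* V),
      Function.Surjective q ∧
      (∀ a, q a = 0 ↔ a ∈ Ideal.span (Set.range fun i =>
        (PowerSeries.C (f i) + PowerSeries.X * PowerSeries.C (f' i) : PowerSeries A))) ∧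
      (∀ p, algebraMap (PowerSeries Ω) V p = q (PowerSeries.map (algebraMap Ω A) p)) ∧
      ∃ bV : Module.Basis (Fin d) (PowerSeries Ω) V, ∀ j, bV j = q (PowerSeries.C (β j)) := by
  obtain ⟨h1, h2⟩ := hFL Ω A N f f' hrel d b β hβ
  let J : Ideal (PowerSeries A) := Ideal.span (Set.range fun i =>
        (PowerSeries.C (f i) + PowerSeries.X * PowerSeries.C (f' i) : PowerSeries A))
  let al : Algebra (PowerSeries Ω) (PowerSeries A ⧸ J) :=
    RingHom.toAlgebra ((Ideal.Quotient.mk J).comp (PowerSeries.map (algebraMap Ω A)))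
  refine ⟨PowerSeries A ⧸ J, inferInstance, al, Ideal.Quotient.mk J,
    Ideal.Quotient.mk_surjective, fun a => Ideal.Quotient.eq_zero_iff_mem, fun p => rfl, ?_⟩
  refine @mk_basis (PowerSeries Ω) (PowerSeries A ⧸ J) _ _ al d
    (fun j => Ideal.Quotient.mk J (PowerSeries.C (β j))) ?_ ?_
  · intro a
    obtain ⟨a, rfl⟩ := Ideal.Quotient.mk_surjective a
    obtain ⟨c, hc⟩ := h1 a
    refine ⟨c, ?_⟩
    rw [← Ideal.Quotient.mk_eq_mk_iff_sub_mem] at hc
    rw [hc, map_sum]
    refine Finset.sum_congr rfl fun j _ => ?_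
    rw [map_mul]
    rfl
  · intro c hc
    apply h2 c
    rw [← Ideal.Quotient.eq_zero_iff_mem, map_sum]
    refine Eq.trans ?_ hc
    refine Finset.sum_congr rfl fun j _ => ?_
    rw [map_mul]
    rfl

/-- identification of the part at the origin -/
theorem local_part (hE : T_EVN.{u}) (hT : T_TAU.{u}) {Ω Ω' : Type u} [Field Ω] [Field Ω']
    (ι : PowerSeries Ω →+* Ω') (N : Type) (f f' : N → AA Ω)
    (hcof : Cof (Ideal.span (Set.range fun i => mapA (ι.comp PowerSeries.C) (f i) +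
      algebraMap Ω' (AA Ω') (ι PowerSeries.X) * mapA (ι.comp PowerSeries.C) (f' i))))
    {V : Type u} [CommRing V] [Algebra (PowerSeries Ω) V] (q : PowerSeries (AA Ω) →+* V)
    (hq : Function.Surjective q)
    (hqJ : ∀ a, q a = 0 ↔ a ∈ Ideal.span (Set.range fun i =>
        (PowerSeries.C (f i) + PowerSeries.X * PowerSeries.C (f' i) : PowerSeries (AA Ω))))
    (hqa : ∀ p, algebraMap (PowerSeries Ω) V p = q (PowerSeries.map (algebraMap Ω (AA Ω)) p))
    {W : Type u} [CommRing W] [Algebra Ω' W] (r : V →+* W)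
    (hr : ∀ l, r (algebraMap (PowerSeries Ω) V l) = algebraMap Ω' W (ι l))
    (hu : ∀ (B : Type u) [CommRing B] (g : Ω' →+* B) (h : V →+* B),
        (∀ l, g (ι l) = h (algebraMap (PowerSeries Ω) V l)) →
        ∃ u : W →+* B, (∀ c, u (algebraMap Ω' W c) = g c) ∧ ∀ v, u (r v) = h v)
    {W1 W2 : Type u} [CommRing W1] [CommRing W2] [Algebra Ω' W1] [Algebra Ω' W2]
    (e : W ≃ₐ[Ω'] W1 × W2)
    (hnil : ∀ i : Fin 3, IsNilpotent (e (r (q (PowerSeries.C (![ax Ω, ay Ω, az Ω] i))))).1)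
    (hspan : Ideal.span (Set.range fun i : Fin 3 =>
      (e (r (q (PowerSeries.C (![ax Ω, ay Ω, az Ω] i))))).2) = ⊤)
    (hgen : Algebra.adjoin Ω' (Set.range fun i : Fin 3 =>
      (e (r (q (PowerSeries.C (![ax Ω, ay Ω, az Ω] i))))).1) = ⊤) :
    ∃ e' : (AA Ω' ⧸ Ideal.span (Set.range fun i => mapA (ι.comp PowerSeries.C) (f i) +
      algebraMap Ω' (AA Ω') (ι PowerSeries.X) * mapA (ι.comp PowerSeries.C) (f' i))) ≃ₐ[Ω'] W1,
      ∀ i, e' (qp _ i) = (e (r (q (PowerSeries.C (![ax Ω, ay Ω, az Ω] i))))).1 := by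
  set I' : Ideal (AA Ω') := Ideal.span (Set.range fun i => mapA (ι.comp PowerSeries.C) (f i) +
      algebraMap Ω' (AA Ω') (ι PowerSeries.X) * mapA (ι.comp PowerSeries.C) (f' i)) with hI'
  obtain ⟨τ, hτ1, hτ2, hτ3⟩ := hT Ω Ω' ι
  have hX : τ PowerSeries.X = algebraMap Ω' (AA Ω') (ι PowerSeries.X) := by
    rw [← hτ1, PowerSeries.map_X]
  let F : N → PowerSeries (AA Ω) := fun i =>
    PowerSeries.C (f i) + PowerSeries.X * PowerSeries.C (f' i)
  have hτF : ∀ i, τ (F i) = mapA (ι.comp PowerSeries.C) (f i) +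
      algebraMap Ω' (AA Ω') (ι PowerSeries.X) * mapA (ι.comp PowerSeries.C) (f' i) := by
    intro i
    simp only [F, map_add, map_mul, hτ2, hX]
  -- the map to `W1`
  let pr1 : W →+* W1 := (RingHom.fst W1 W2).comp (e : W →+* W1 × W2)
  have hpr1 : ∀ w, pr1 w = (e w).1 := fun w => rfl
  let γ : PowerSeries (AA Ω) →+* W1 := pr1.comp (r.comp q)
  have hγ : ∀ a, γ a = (e (r (q a))).1 := fun a => rfl
  have halg1 : ∀ c, pr1 (algebraMap Ω' W c) = algebraMap Ω' W1 c := by
    intro c
    rw [hpr1, AlgEquiv.commutes]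
    rfl
  obtain ⟨β, hβ1, hβ2⟩ := hτ3 W1 (algebraMap Ω' W1) γ (by
    intro p
    rw [hγ, ← hqa, hr, ← hpr1, halg1]) (by
    rw [hγ]; exact hnil 0) (by rw [hγ]; exact hnil 1)
  have hβx : ∀ i : Fin 3, β (![ax Ω', ay Ω', az Ω'] i) =
      (e (r (q (PowerSeries.C (![ax Ω, ay Ω, az Ω] i))))).1 := by
    intro i
    rw [← hγ, ← hβ1, hτ2]
    fin_cases i
    · simp [mapA_ax]
    · simp [mapA_ay]
    · simp [mapA_az]
  -- the map from `W`
  have hker : ∀ a : PowerSeries (AA Ω), q a = 0 → Ideal.Quotient.mk I' (τ a) = 0 := by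
    intro a ha
    rw [hqJ] at ha
    rw [Ideal.Quotient.eq_zero_iff_mem]
    have h1 : Ideal.span (Set.range F) ≤ I'.comap τ := by
      rw [Ideal.span_le]
      rintro _ ⟨i, rfl⟩
      change τ (F i) ∈ I'
      rw [hτF]
      exact Ideal.subset_span ⟨i, rfl⟩
    exact h1 ha
  let h' : V →+* AA Ω' ⧸ I' := RingHom.liftOfSurjective q hq
    ⟨(Ideal.Quotient.mk I').comp τ, fun a ha => hker a ha⟩
  have hh' : ∀ a, h' (q a) = Ideal.Quotient.mk I' (τ a) := by
    intro a
    exact RingHom.liftOfSurjective_comp_apply q hq _ a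
  obtain ⟨α, hα1, hα2⟩ := hu (AA Ω' ⧸ I') (algebraMap Ω' (AA Ω' ⧸ I')) h' (by
    intro l
    rw [hqa, hh', hτ1]
    rfl)
  have hαx : ∀ i : Fin 3, α (r (q (PowerSeries.C (![ax Ω, ay Ω, az Ω] i)))) = qp I' i := by
    intro i
    rw [hα2, hh', hτ2]
    fin_cases i
    · simp [mapA_ax, qp]
    · simp [mapA_ay, qp]
    · simp [mapA_az, qp]
  -- the idempotent goes to zero
  have hε : ∀ w2 : W2, α (e.symm (0, w2)) = 0 := by
    have h1 : (1 : W2) ∈ Ideal.span (Set.range fun i : Fin 3 =>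
      (e (r (q (PowerSeries.C (![ax Ω, ay Ω, az Ω] i))))).2) := by rw [hspan]; trivial
    rw [Ideal.mem_span_range_iff_exists_fun] at h1
    obtain ⟨c, hc⟩ := h1
    have h2 : e.symm (0, 1) = ∑ i : Fin 3, e.symm (0, c i) *
        r (q (PowerSeries.C (![ax Ω, ay Ω, az Ω] i))) := by
      apply e.injective
      rw [map_sum, AlgEquiv.apply_symm_apply, ← hc]
      apply Prod.ext
      · simp [Prod.fst_sum]
      · simp [Prod.snd_sum]
    have h3 : IsNilpotent (α (e.symm (0, 1))) := by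
      rw [h2, map_sum]
      apply isNilpotent_sum
      intro i _
      rw [map_mul, hαx]
      exact Commute.isNilpotent_mul_left (Commute.all _ _) (hcof.nilpotent i)
    have h4 : α (e.symm (0, 1)) * α (e.symm (0, 1)) = α (e.symm (0, 1)) := by
      rw [← map_mul, ← map_mul]
      congr 2
      simp
    have h5 : α (e.symm (0, 1)) = 0 := by
      obtain ⟨n, hn⟩ := h3
      have h6 : ∀ n : ℕ, α (e.symm (0, 1)) ^ (n + 1) = α (e.symm (0, 1)) := by
        intro n
        induction n with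
        | zero => simp
        | succ n ih => rw [pow_succ, ih, h4]
      rw [← h6 n, pow_succ, hn, zero_mul]
    intro w2
    have h7 : e.symm (0, w2) = e.symm (0, w2) * e.symm (0, 1) := by
      rw [← map_mul]
      congr 1
      simp
    rw [h7, map_mul, h5, mul_zero]
  -- the inverse map
  let δ : W1 →+* AA Ω' ⧸ I' :=
    { toFun := fun w1 => α (e.symm (w1, 0))
      map_one' := by
        have h1 : ((1, 0) : W1 × W2) = 1 - (0, 1) := by
          apply Prod.ext <;> simp
        rw [h1, map_sub, map_sub, hε, map_one, map_one, sub_zero]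
      map_mul' := fun a b => by
        rw [← map_mul, ← map_mul]
        congr 2
        simp
      map_zero' := by
        have h1 : ((0, 0) : W1 × W2) = 0 := rfl
        rw [h1, map_zero, map_zero]
      map_add' := fun a b => by
        rw [← map_add, ← map_add]
        congr 2
        simp }
  have hδ : ∀ w1, δ w1 = α (e.symm (w1, 0)) := fun w1 => rfl
  have hδe : ∀ w : W, δ (e w).1 = α w := by
    intro w
    rw [hδ]
    have h1 : (((e w).1, 0) : W1 × W2) = e w - (0, (e w).2) := by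
      apply Prod.ext <;> simp
    rw [h1, map_sub, map_sub, hε, sub_zero, AlgEquiv.symm_apply_apply]
  have hcomp : δ.comp β = Ideal.Quotient.mk I' := by
    refine (hE Ω' (AA Ω' ⧸ I') (algebraMap Ω' (AA Ω' ⧸ I')) (qp I' 0) (qp I' 1) (qp I' 2)
      (hcof.nilpotent 0) (hcof.nilpotent 1) (qp_sq I')).2 _ _ ?_ ?_ ?_ ?_ ?_ ?_
    · intro c
      rw [RingHom.comp_apply, hβ2, ← halg1, hpr1, hδe, hα1]
      rfl
    · rw [RingHom.comp_apply]
      have := hβx 0
      simp only [Matrix.cons_val_zero] at this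
      rw [this, hδe]
      exact hαx 0
    · rw [RingHom.comp_apply]
      have := hβx 1
      simp only [Matrix.cons_val_one, Matrix.cons_val_zero] at this
      rw [this, hδe]
      exact hαx 1
    · rw [RingHom.comp_apply]
      have := hβx 2
      simp only [Matrix.cons_val] at this
      rw [this, hδe]
      exact hαx 2
    · rw [RingHom.comp_apply]
      have := hβx 0
      simp only [Matrix.cons_val_zero] at this
      rw [this]
      exact (hnil 0).map δ
    · rw [RingHom.comp_apply]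
      have := hβx 1
      simp only [Matrix.cons_val_one, Matrix.cons_val_zero] at this
      rw [this]
      exact (hnil 1).map δ
  -- kernel and image of `β`
  let βa : AA Ω' →ₐ[Ω'] W1 := { β with commutes' := hβ2 }
  have hβa : ∀ a, βa a = β a := fun a => rfl
  have hsurj : Function.Surjective βa := by
    rw [← AlgHom.range_eq_top, eq_top_iff, ← hgen, Algebra.adjoin_le_iff]
    rintro _ ⟨i, rfl⟩
    exact ⟨![ax Ω', ay Ω', az Ω'] i, hβx i⟩
  have hkerβ : RingHom.ker βa = I' := by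
    apply le_antisymm
    · intro a ha
      rw [RingHom.mem_ker, hβa] at ha
      rw [← Ideal.Quotient.eq_zero_iff_mem, ← hcomp, RingHom.comp_apply, ha, map_zero]
    · rw [hI', Ideal.span_le]
      rintro _ ⟨i, rfl⟩
      change βa (mapA (ι.comp PowerSeries.C) (f i) +
        algebraMap Ω' (AA Ω') (ι PowerSeries.X) * mapA (ι.comp PowerSeries.C) (f' i)) = 0
      rw [hβa, ← hτF, hβ1, hγ]
      have : q (F i) = 0 := by
        rw [hqJ]
        exact Ideal.subset_span ⟨i, rfl⟩
      rw [this, map_zero, map_zero]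
      rfl
  refine ⟨(Ideal.quotientEquivAlgOfEq Ω' hkerβ.symm).trans
    (Ideal.quotientKerAlgEquivOfSurjective hsurj), fun i => ?_⟩
  have h1 : qp I' i = Ideal.Quotient.mk I' (![ax Ω', ay Ω', az Ω'] i) := by
    fin_cases i <;> rfl
  rw [h1, AlgEquiv.trans_apply, Ideal.quotientEquivAlgOfEq_mk,
    Ideal.quotientKerAlgEquivOfSurjective_mk, hβa, hβx]

theorem fam (hFL : T_FLAT.{u}) (hFI : T_FINM.{u}) (hT : T_TAU.{u}) (hE : T_EVN.{u})
    (hId : T_IDEM.{u}) (hAw : T_AWAY.{u}) (hS : T_SUM.{u}) : T_FAM.{u} := by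
  intro k Ω Ω' _ _ _ _ _ _ _ κ ι hι N _ f f' hcof hrel
  have hcof' := cof_fam hFI ι hι N f f' hcof
  refine ⟨hcof', ?_⟩
  intro hI' d b
  -- polynomial lifts of the basis
  obtain ⟨M, hM⟩ := hcof.exists_trunc
  choose a ha using fun j => Ideal.Quotient.mk_surjective (b j)
  let β : Fin d → AA Ω := fun l => ∑ i ∈ Finset.range M, ∑ j ∈ Finset.range M,
      (algebraMap Ω (AA Ω) (cf i j (a l).re) * ax Ω ^ i * ay Ω ^ j +
        algebraMap Ω (AA Ω) (cf i j (a l).im) * ax Ω ^ i * ay Ω ^ j * az Ω)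
  have hβ : ∀ j, Ideal.Quotient.mk (Ideal.span (Set.range f)) (β j) = b j := by
    intro j
    rw [← ha j, eq_comm, Ideal.Quotient.mk_eq_mk_iff_sub_mem]
    exact hM (a j)
  obtain ⟨V, _, _, q, hq, hqJ, hqa, bV, hbV⟩ := exists_V hFL N f f' hrel d b β hβ
  obtain ⟨W, _, _, r, hr, ⟨bW, hbW⟩, hu⟩ := bc ι bV
  let P : Fin 3 → AA Ω := ![ax Ω, ay Ω, az Ω]
  let pV : Fin 3 → V := fun i => q (PowerSeries.C (P i))
  -- reduction modulo `t`
  have hker : ∀ x : PowerSeries (AA Ω), q x = 0 → Ideal.Quotient.mk (Ideal.span (Set.range f))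
      (PowerSeries.constantCoeff x) = 0 := by
    intro x hx
    rw [hqJ] at hx
    rw [Ideal.Quotient.eq_zero_iff_mem]
    have h1 : Ideal.span (Set.range fun i => (PowerSeries.C (f i) +
        PowerSeries.X * PowerSeries.C (f' i) : PowerSeries (AA Ω))) ≤
        (Ideal.span (Set.range f)).comap PowerSeries.constantCoeff := by
      rw [Ideal.span_le]
      rintro _ ⟨i, rfl⟩
      change PowerSeries.constantCoeff (PowerSeries.C (f i) +
        PowerSeries.X * PowerSeries.C (f' i) : PowerSeries (AA Ω)) ∈ Ideal.span (Set.range f)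
      simp only [map_add, map_mul, PowerSeries.constantCoeff_C, PowerSeries.constantCoeff_X,
        zero_mul, add_zero]
      exact Ideal.subset_span ⟨i, rfl⟩
    exact h1 hx
  let π : V →+* AA Ω ⧸ Ideal.span (Set.range f) := RingHom.liftOfSurjective q hq
    ⟨(Ideal.Quotient.mk (Ideal.span (Set.range f))).comp PowerSeries.constantCoeff,
      fun x hx => hker x hx⟩
  have hπ : ∀ x, π (q x) = Ideal.Quotient.mk (Ideal.span (Set.range f))
      (PowerSeries.constantCoeff x) := fun x => RingHom.liftOfSurjective_comp_apply q hq _ x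
  have hred := cfg_bc (PowerSeries.constantCoeff (R := Ω)) π (by
    intro l
    rw [hqa, hπ, ← PowerSeries.coeff_zero_eq_constantCoeff_apply, PowerSeries.coeff_map,
      PowerSeries.coeff_zero_eq_constantCoeff_apply]
    rfl) bV b (by
    intro j
    rw [hbV, hπ, PowerSeries.constantCoeff_C, hβ]) pV
  have hqp : (fun i => π (pV i)) = qp (Ideal.span (Set.range f)) := by
    funext i
    change π (q (PowerSeries.C (P i))) = _
    rw [hπ, PowerSeries.constantCoeff_C]
    fin_cases i <;> rfl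
  rw [hqp] at hred
  rw [← hred]
  refine SmCfg.spec κ ι hι (cfgOf bV pV) ?_
  rw [cfg_bc ι r hr bV bW (fun j => (hbW j).symm) pV]
  -- `W` is generated by the three elements
  have hgenV : ∀ v : V, v ∈ Algebra.adjoin (PowerSeries Ω) (Set.range pV) := by
    intro v
    rw [← bV.sum_repr v]
    refine Subalgebra.sum_mem _ fun j _ => Subalgebra.smul_mem _ ?_ _
    rw [hbV]
    have hmem : ∀ i : Fin 3, q (PowerSeries.C (P i)) ∈
        Algebra.adjoin (PowerSeries Ω) (Set.range pV) := fun i =>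
      Algebra.subset_adjoin ⟨i, rfl⟩
    have hc : ∀ c : Ω, q (PowerSeries.C (algebraMap Ω (AA Ω) c)) ∈
        Algebra.adjoin (PowerSeries Ω) (Set.range pV) := by
      intro c
      have h1 : q (PowerSeries.C (algebraMap Ω (AA Ω) c)) =
          algebraMap (PowerSeries Ω) V (PowerSeries.C c) := by
        rw [hqa, PowerSeries.map_C]
      rw [h1]
      exact Subalgebra.algebraMap_mem _ _
    have hx := hmem 0
    have hy := hmem 1
    have hz := hmem 2
    simp only [P, Matrix.cons_val] at hx hy hz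
    simp only [β, map_sum, map_add, map_mul, map_pow]
    refine Subalgebra.sum_mem _ fun i _ => Subalgebra.sum_mem _ fun j _ => ?_
    exact Subalgebra.add_mem _ (Subalgebra.mul_mem _ (Subalgebra.mul_mem _ (hc _)
      (Subalgebra.pow_mem _ hx _)) (Subalgebra.pow_mem _ hy _))
      (Subalgebra.mul_mem _ (Subalgebra.mul_mem _ (Subalgebra.mul_mem _ (hc _)
        (Subalgebra.pow_mem _ hx _)) (Subalgebra.pow_mem _ hy _)) hz)
  let pW : Fin 3 → W := fun i => r (pV i)
  have hgenW : Algebra.adjoin Ω' (Set.range pW) = ⊤ := by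
    rw [eq_top_iff]
    rintro w -
    rw [← bW.sum_repr w]
    refine Subalgebra.sum_mem _ fun j _ => Subalgebra.smul_mem _ ?_ _
    rw [hbW]
    exact adjoin_map ι r hr pV _ (hgenV _)
  have hsurf : pW 2 ^ 2 = pW 0 ^ 4 + pW 1 ^ 4 := by
    change r (q (PowerSeries.C (az Ω))) ^ 2 = r (q (PowerSeries.C (ax Ω))) ^ 4 +
      r (q (PowerSeries.C (ay Ω))) ^ 4
    simp only [← map_pow, ← map_add, az_sq]
  -- splitting
  have : Module.Finite Ω' W := Module.Finite.of_basis bW
  obtain ⟨W1, W2, _, _, _, _, e, hnil, hspan⟩ := hId Ω' W pW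
  let e1 : W →ₐ[Ω'] W1 := (AlgHom.fst Ω' W1 W2).comp e.toAlgHom
  let e2 : W →ₐ[Ω'] W2 := (AlgHom.snd Ω' W1 W2).comp e.toAlgHom
  have he1 : ∀ w, e1 w = (e w).1 := fun w => rfl
  have he2 : ∀ w, e2 w = (e w).2 := fun w => rfl
  have hs1 : Function.Surjective e1 := fun w => ⟨e.symm (w, 0), by rw [he1]; simp⟩
  have hs2 : Function.Surjective e2 := fun w => ⟨e.symm (0, w), by rw [he2]; simp⟩
  have : Module.Finite Ω' W1 := Module.Finite.of_surjective e1.toLinearMap hs1
  have : Module.Finite Ω' W2 := Module.Finite.of_surjective e2.toLinearMap hs2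
  have hgen1 : Algebra.adjoin Ω' (Set.range fun i => (e (pW i)).1) = ⊤ := by
    rw [eq_top_iff]
    rintro w -
    obtain ⟨w, rfl⟩ := hs1 w
    exact adjoin_map (RingHom.id Ω') (e1 : W →+* W1) (fun l => e1.commutes l) pW w
      (by rw [hgenW]; trivial)
  have hgen2 : Algebra.adjoin Ω' (Set.range fun i => (e (pW i)).2) = ⊤ := by
    rw [eq_top_iff]
    rintro w -
    obtain ⟨w, rfl⟩ := hs2 w
    exact adjoin_map (RingHom.id Ω') (e2 : W →+* W2) (fun l => e2.commutes l) pW w
      (by rw [hgenW]; trivial)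
  have hgen12 : Algebra.adjoin Ω' (Set.range fun i => ((e (pW i)).1, (e (pW i)).2)) = ⊤ := by
    rw [eq_top_iff]
    rintro w -
    obtain ⟨w, rfl⟩ := e.surjective w
    exact adjoin_map (RingHom.id Ω') (e : W →+* W1 × W2) (fun l => e.commutes l) pW w
      (by rw [hgenW]; trivial)
  have hsm2 : SmAt ((ι.comp PowerSeries.C).comp κ) W2 (fun i => (e (pW i)).2) := by
    refine hAw k Ω' _ W2 (fun i => (e (pW i)).2) hgen2 ?_ hspan
    change e2 (pW 2) ^ 2 = e2 (pW 0) ^ 4 + e2 (pW 1) ^ 4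
    rw [← map_pow, hsurf, map_add, map_pow, map_pow]
  have hsm1 : SmAt ((ι.comp PowerSeries.C).comp κ) W1 (fun i => (e (pW i)).1) := by
    obtain ⟨e', he'⟩ := local_part hE hT ι N f f' hcof' q hq hqJ hqa r hr hu e hnil hspan hgen1
    exact SmAt.of_iso e' he' hI'
  have hsm := hS k Ω' ((ι.comp PowerSeries.C).comp κ) W1 W2 _ _ hsm1 hsm2 hgen12
  have hsmW : SmAt ((ι.comp PowerSeries.C).comp κ) W pW :=
    SmAt.of_iso e.symm (fun i => by rw [Prod.mk.eta, AlgEquiv.symm_apply_apply]) hsm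
  exact hsmW d bW

end Pool.Agent.H76.HZ.FAM
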