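import Pool.Agent.H12.HS.Targets
import Pool.Agent.H12.HS.Basic

/-!
# MP_eb1332_ag, module TAU: the homomorphism `AA Ω [[t]] → AA Ω'`
-/

namespace Pool.Agent.H76.HZ.TAU

open Pool.Agent.H12.HS

universe u

/-- exchange of the two variables -/
noncomputable def sw (R : Type u) [CommRing R] :
    PowerSeries (PowerSeries R) →+* PowerSeries (PowerSeries R) where
  toFun f := PowerSeries.mk fun j => PowerSeries.mk fun i =>
    PowerSeries.coeff j (PowerSeries.coeff i f)
  map_one' := by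
    ext j i
    simp only [PowerSeries.coeff_mk, PowerSeries.coeff_one]
    by_cases hi : i = 0 <;> by_cases hj : j = 0 <;> simp [hi, hj, PowerSeries.coeff_one]
  map_mul' f g := by
    ext j i
    simp only [PowerSeries.coeff_mk, PowerSeries.coeff_mul, map_sum]
    exact Finset.sum_comm
  map_zero' := by
    ext j i
    simp
  map_add' f g := by
    ext j i
    simp

theorem coeff_sw (R : Type u) [CommRing R] (f : PowerSeries (PowerSeries R)) (i j : ℕ) :
    PowerSeries.coeff i (PowerSeries.coeff j (sw R f)) =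
      PowerSeries.coeff j (PowerSeries.coeff i f) := by
  simp [sw]

variable {Ω Ω' : Type u} [Field Ω] [Field Ω']

/-- the map on `P2` -/
noncomputable def tauP (ι : PowerSeries Ω →+* Ω') : PowerSeries (P2 Ω) →+* P2 Ω' :=
  (PowerSeries.map (PowerSeries.map ι)).comp
    ((PowerSeries.map (sw Ω)).comp (sw (PowerSeries Ω)))

theorem cf_tauP (ι : PowerSeries Ω →+* Ω') (i j : ℕ) (f : PowerSeries (P2 Ω)) :
    cf i j (tauP ι f) = ι (PowerSeries.mk fun k => cf i j (PowerSeries.coeff k f)) := by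
  simp only [tauP, cf, RingHom.comp_apply, PowerSeries.coeff_map]
  congr 1
  ext k
  rw [PowerSeries.coeff_mk, coeff_sw, coeff_sw]

theorem tauP_C (ι : PowerSeries Ω →+* Ω') (p : P2 Ω) :
    tauP ι (PowerSeries.C p) = mapP (ι.comp PowerSeries.C) p := by
  apply ext_cf
  intro i j
  rw [cf_tauP, cf_mapP, RingHom.comp_apply]
  congr 1
  ext k
  rw [PowerSeries.coeff_mk, PowerSeries.coeff_C, PowerSeries.coeff_C]
  split_ifs
  · rfl
  · exact cf_zero _ _

theorem tauP_map (ι : PowerSeries Ω →+* Ω') (p : PowerSeries Ω) :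
    tauP ι (PowerSeries.map (algebraMap Ω (P2 Ω)) p) = cst (ι p) := by
  apply ext_cf
  intro i j
  rw [cf_tauP, cf_cst]
  split_ifs with h
  · congr 1
    ext k
    rw [PowerSeries.coeff_mk, PowerSeries.coeff_map, algebraMap_P2, cf_cst, if_pos h]
  · rw [← map_zero ι]
    congr 1
    ext k
    rw [PowerSeries.coeff_mk, PowerSeries.coeff_map, algebraMap_P2, cf_cst, if_neg h, map_zero]

/-- coefficientwise real part -/
noncomputable def reS (f : PowerSeries (AA Ω)) : PowerSeries (P2 Ω) :=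
  PowerSeries.mk fun k => (PowerSeries.coeff k f).re
/-- coefficientwise imaginary part -/
noncomputable def imS (f : PowerSeries (AA Ω)) : PowerSeries (P2 Ω) :=
  PowerSeries.mk fun k => (PowerSeries.coeff k f).im

theorem reS_mul (f g : PowerSeries (AA Ω)) :
    reS (f * g) = reS f * reS g + PowerSeries.C (g4 Ω) * (imS f * imS g) := by
  ext1 k
  rw [map_add, PowerSeries.coeff_C_mul, PowerSeries.coeff_mul, PowerSeries.coeff_mul, reS,
    PowerSeries.coeff_mk, PowerSeries.coeff_mul]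
  have h : ∀ (s : Finset (ℕ × ℕ)) (F : ℕ × ℕ → AA Ω), (∑ i ∈ s, F i).re = ∑ i ∈ s, (F i).re := by
    intro s F
    induction s using Finset.cons_induction with
    | empty => rfl
    | cons a s ha ih => rw [Finset.sum_cons, Finset.sum_cons, QuadraticAlgebra.re_add, ih]
  rw [h, Finset.mul_sum, ← Finset.sum_add_distrib]
  refine Finset.sum_congr rfl fun x _ => ?_
  rw [QuadraticAlgebra.re_mul, reS, reS, imS, imS, PowerSeries.coeff_mk, PowerSeries.coeff_mk,
    PowerSeries.coeff_mk, PowerSeries.coeff_mk]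
  ring

theorem imS_mul (f g : PowerSeries (AA Ω)) :
    imS (f * g) = reS f * imS g + imS f * reS g := by
  ext1 k
  rw [map_add, PowerSeries.coeff_mul, PowerSeries.coeff_mul, imS,
    PowerSeries.coeff_mk, PowerSeries.coeff_mul]
  have h : ∀ (s : Finset (ℕ × ℕ)) (F : ℕ × ℕ → AA Ω), (∑ i ∈ s, F i).im = ∑ i ∈ s, (F i).im := by
    intro s F
    induction s using Finset.cons_induction with
    | empty => rfl
    | cons a s ha ih => rw [Finset.sum_cons, Finset.sum_cons, QuadraticAlgebra.im_add, ih]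
  rw [h, ← Finset.sum_add_distrib]
  refine Finset.sum_congr rfl fun x _ => ?_
  simp only [QuadraticAlgebra.im_mul, reS, imS, PowerSeries.coeff_mk]
  ring

theorem reS_add (f g : PowerSeries (AA Ω)) : reS (f + g) = reS f + reS g := by
  ext1 k
  simp [reS]
theorem imS_add (f g : PowerSeries (AA Ω)) : imS (f + g) = imS f + imS g := by
  ext1 k
  simp [imS]
theorem reS_C (a : AA Ω) : reS (PowerSeries.C a) = PowerSeries.C a.re := by
  ext1 k
  rw [reS, PowerSeries.coeff_mk, PowerSeries.coeff_C, PowerSeries.coeff_C]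
  split_ifs <;> rfl
theorem imS_C (a : AA Ω) : imS (PowerSeries.C a) = PowerSeries.C a.im := by
  ext1 k
  rw [imS, PowerSeries.coeff_mk, PowerSeries.coeff_C, PowerSeries.coeff_C]
  split_ifs <;> rfl

/-- the homomorphism `τ` -/
noncomputable def tau (ι : PowerSeries Ω →+* Ω') : PowerSeries (AA Ω) →+* AA Ω' where
  toFun f := ⟨tauP ι (reS f), tauP ι (imS f)⟩
  map_one' := by
    have h1 : (1 : PowerSeries (AA Ω)) = PowerSeries.C 1 := by simp
    rw [h1, reS_C, imS_C, tauP_C, tauP_C]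
    apply QuadraticAlgebra.ext
    · exact map_one _
    · exact map_zero _
  map_mul' f g := by
    apply QuadraticAlgebra.ext
    · rw [QuadraticAlgebra.re_mul, reS_mul]
      simp only [map_add, map_mul, tauP_C, mapP_g4]
      ring
    · rw [QuadraticAlgebra.im_mul, imS_mul]
      simp only [map_add, map_mul]
      ring
  map_zero' := by
    have h1 : (0 : PowerSeries (AA Ω)) = PowerSeries.C 0 := by simp
    rw [h1, reS_C, imS_C, tauP_C, tauP_C]
    apply QuadraticAlgebra.ext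
    · exact map_zero _
    · exact map_zero _
  map_add' f g := by
    apply QuadraticAlgebra.ext
    · rw [QuadraticAlgebra.re_add, reS_add, map_add]
    · rw [QuadraticAlgebra.im_add, imS_add, map_add]

theorem tau_apply (ι : PowerSeries Ω →+* Ω') (f : PowerSeries (AA Ω)) :
    tau ι f = ⟨tauP ι (reS f), tauP ι (imS f)⟩ := rfl

theorem tau_map (ι : PowerSeries Ω →+* Ω') (p : PowerSeries Ω) :
    tau ι (PowerSeries.map (algebraMap Ω (AA Ω)) p) = algebraMap Ω' (AA Ω') (ι p) := by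
  rw [tau_apply, algebraMap_AA]
  have h1 : reS (PowerSeries.map (algebraMap Ω (AA Ω)) p) =
      PowerSeries.map (algebraMap Ω (P2 Ω)) p := by
    ext1 k
    rw [reS, PowerSeries.coeff_mk, PowerSeries.coeff_map, PowerSeries.coeff_map, algebraMap_AA,
      algebraMap_P2]
  have h2 : imS (PowerSeries.map (algebraMap Ω (AA Ω)) p) = 0 := by
    ext1 k
    rw [imS, PowerSeries.coeff_mk, PowerSeries.coeff_map, algebraMap_AA, map_zero]
  rw [h1, h2, tauP_map, map_zero]

theorem tau_C (ι : PowerSeries Ω →+* Ω') (a : AA Ω) :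
    tau ι (PowerSeries.C a) = mapA (ι.comp PowerSeries.C) a := by
  rw [tau_apply, reS_C, imS_C, tauP_C, tauP_C]
  rfl

/-- truncation in `P2 [[t]]` -/
theorem trunc_PP (N : ℕ) (p : PowerSeries (P2 Ω)) : ∃ q1 q2 : PowerSeries (P2 Ω),
    p = (∑ i ∈ Finset.range N, ∑ j ∈ Finset.range N,
      PowerSeries.map (algebraMap Ω (P2 Ω))
        (PowerSeries.mk fun k => cf i j (PowerSeries.coeff k p)) *
        PowerSeries.C (px Ω) ^ i * PowerSeries.C (py Ω) ^ j) +
      PowerSeries.C (px Ω) ^ N * q1 + PowerSeries.C (py Ω) ^ N * q2 := by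
  choose q1 q2 hq using fun k => trunc_P2 N (PowerSeries.coeff k p)
  refine ⟨PowerSeries.mk q1, PowerSeries.mk q2, ?_⟩
  ext1 k
  rw [map_add, map_add, ← map_pow, ← map_pow, PowerSeries.coeff_C_mul, PowerSeries.coeff_C_mul,
    PowerSeries.coeff_mk, PowerSeries.coeff_mk, map_sum]
  conv_lhs => rw [hq k]
  congr 2
  refine Finset.sum_congr rfl fun i _ => ?_
  rw [map_sum]
  refine Finset.sum_congr rfl fun j _ => ?_
  rw [← map_pow, ← map_pow, PowerSeries.coeff_mul_C, PowerSeries.coeff_mul_C,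
    PowerSeries.coeff_map, PowerSeries.coeff_mk, algebraMap_P2]

/-- uniqueness of homomorphisms on `P2 [[t]]` -/
theorem uniq_P {B : Type u} [CommRing B] (γ γ' : PowerSeries (P2 Ω) →+* B)
    (h0 : ∀ p : PowerSeries Ω, γ (PowerSeries.map (algebraMap Ω (P2 Ω)) p) =
      γ' (PowerSeries.map (algebraMap Ω (P2 Ω)) p))
    (hx : γ (PowerSeries.C (px Ω)) = γ' (PowerSeries.C (px Ω)))
    (hy : γ (PowerSeries.C (py Ω)) = γ' (PowerSeries.C (py Ω)))
    (nx : IsNilpotent (γ (PowerSeries.C (px Ω)))) (ny : IsNilpotent (γ (PowerSeries.C (py Ω))))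
    (p : PowerSeries (P2 Ω)) : γ p = γ' p := by
  obtain ⟨m, hm⟩ := nx
  obtain ⟨n, hn⟩ := ny
  have hxN : γ (PowerSeries.C (px Ω)) ^ (m + n) = 0 := by rw [pow_add, hm, zero_mul]
  have hyN : γ (PowerSeries.C (py Ω)) ^ (m + n) = 0 := by rw [pow_add, hn, mul_zero]
  obtain ⟨q1, q2, hq⟩ := trunc_PP (m + n) p
  rw [hq]
  simp only [map_add, map_mul γ, map_mul γ', map_sum, map_pow γ, map_pow γ']
  rw [← hx, ← hy, hxN, hyN]
  simp only [h0, zero_mul]

theorem AS_eq (a : PowerSeries (AA Ω)) :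
    a = PowerSeries.map (algebraMap (P2 Ω) (AA Ω)) (reS a) +
      PowerSeries.map (algebraMap (P2 Ω) (AA Ω)) (imS a) * PowerSeries.C (az Ω) := by
  ext1 k
  rw [map_add, PowerSeries.coeff_mul_C, PowerSeries.coeff_map, PowerSeries.coeff_map, reS, imS,
    PowerSeries.coeff_mk, PowerSeries.coeff_mk, ← AA_eq]

theorem map_alg (p : PowerSeries Ω) : PowerSeries.map (algebraMap (P2 Ω) (AA Ω))
    (PowerSeries.map (algebraMap Ω (P2 Ω)) p) = PowerSeries.map (algebraMap Ω (AA Ω)) p := by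
  ext1 k
  rw [PowerSeries.coeff_map, PowerSeries.coeff_map, PowerSeries.coeff_map, algebraMap_AA',
    algebraMap_P2]

theorem uniq_A {B : Type u} [CommRing B] (γ γ' : PowerSeries (AA Ω) →+* B)
    (h0 : ∀ p : PowerSeries Ω, γ (PowerSeries.map (algebraMap Ω (AA Ω)) p) =
      γ' (PowerSeries.map (algebraMap Ω (AA Ω)) p))
    (hx : γ (PowerSeries.C (ax Ω)) = γ' (PowerSeries.C (ax Ω)))
    (hy : γ (PowerSeries.C (ay Ω)) = γ' (PowerSeries.C (ay Ω)))
    (hz : γ (PowerSeries.C (az Ω)) = γ' (PowerSeries.C (az Ω)))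
    (nx : IsNilpotent (γ (PowerSeries.C (ax Ω)))) (ny : IsNilpotent (γ (PowerSeries.C (ay Ω))))
    (a : PowerSeries (AA Ω)) : γ a = γ' a := by
  have h1 : PowerSeries.map (algebraMap (P2 Ω) (AA Ω)) (PowerSeries.C (px Ω)) =
      PowerSeries.C (ax Ω) := by rw [PowerSeries.map_C, ax_eq]
  have h2 : PowerSeries.map (algebraMap (P2 Ω) (AA Ω)) (PowerSeries.C (py Ω)) =
      PowerSeries.C (ay Ω) := by rw [PowerSeries.map_C, ay_eq]
  have hP := uniq_P (γ.comp (PowerSeries.map (algebraMap (P2 Ω) (AA Ω))))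
    (γ'.comp (PowerSeries.map (algebraMap (P2 Ω) (AA Ω))))
    (by intro p; simp only [RingHom.comp_apply, map_alg]; exact h0 p)
    (by simp only [RingHom.comp_apply, h1]; exact hx)
    (by simp only [RingHom.comp_apply, h2]; exact hy)
    (by simp only [RingHom.comp_apply, h1]; exact nx)
    (by simp only [RingHom.comp_apply, h2]; exact ny)
  simp only [RingHom.comp_apply] at hP
  rw [AS_eq a, map_add, map_add, map_mul, map_mul, hP, hP, hz]

theorem tau_thm (hE : T_EVN.{u}) : T_TAU.{u} := by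
  intro Ω Ω' _ _ ι
  refine ⟨tau ι, tau_map ι, tau_C ι, ?_⟩
  intro B _ j γ hγ nx ny
  have hz : γ (PowerSeries.C (az Ω)) ^ 2 = γ (PowerSeries.C (ax Ω)) ^ 4 +
      γ (PowerSeries.C (ay Ω)) ^ 4 := by
    rw [← map_pow, ← map_pow, ← map_pow, ← map_pow, ← map_pow, ← map_pow, ← map_add, ← map_add,
      az_sq]
  obtain ⟨⟨β, h1, h2, h3, h4⟩, -⟩ := hE Ω' B j (γ (PowerSeries.C (ax Ω)))
    (γ (PowerSeries.C (ay Ω))) (γ (PowerSeries.C (az Ω))) nx ny hz
  refine ⟨β, ?_, h1⟩
  intro a
  refine (uniq_A γ (β.comp (tau ι)) ?_ ?_ ?_ ?_ nx ny a).symm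
  · intro p
    rw [RingHom.comp_apply, tau_map, h1, hγ]
  · rw [RingHom.comp_apply, tau_C, mapA_ax, h2]
  · rw [RingHom.comp_apply, tau_C, mapA_ay, h3]
  · rw [RingHom.comp_apply, tau_C, mapA_az, h4]

end Pool.Agent.H76.HZ.TAU
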