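import Pool.Agent.H12.HS.Targets
import Pool.Agent.H12.HS.Basic
import Pool.Agent.H76.HZ.TAU

/-!
# MP_eb1332_ag, module FINM: semicontinuity of cofiniteness
-/

namespace Pool.Agent.H76.HZ.FINM

open Pool.Agent.H12.HS Pool.Agent.H76.HZ.TAU

universe u

/-- iteration modulo `X` -/
theorem iter {R : Type*} [CommRing R] {n J : Type*} [Fintype J] (g : J → n → PowerSeries R)
    (A : J → Set R)
    (h : ∀ w : n → PowerSeries R, ∃ (a : J → R) (w' : n → PowerSeries R), (∀ j, a j ∈ A j) ∧
      ∀ l, w l = ∑ j, PowerSeries.C (a j) * g j l + PowerSeries.X * w' l)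
    (w : n → PowerSeries R) :
    ∃ α : J → PowerSeries R, (∀ j k, PowerSeries.coeff k (α j) ∈ A j) ∧
      ∀ l, w l = ∑ j, α j * g j l := by
  choose a nx ha hw using h
  let ws : ℕ → n → PowerSeries R := fun k => nx^[k] w
  have hws : ∀ k, ws (k + 1) = nx (ws k) := fun k => Function.iterate_succ_apply' nx k w
  refine ⟨fun j => PowerSeries.mk fun k => a (ws k) j, fun j k => ?_, fun l => ?_⟩
  · rw [PowerSeries.coeff_mk]; exact ha _ _
  have key : ∀ K : ℕ, w l = ∑ k ∈ Finset.range K,
      PowerSeries.X ^ k * (∑ j, PowerSeries.C (a (ws k) j) * g j l) +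
      PowerSeries.X ^ K * ws K l := by
    intro K
    induction K with
    | zero => simp [ws]
    | succ K ih =>
      rw [ih, Finset.sum_range_succ, hws, hw (ws K) l, pow_succ]
      rw [← hw (ws K) l]
      conv_lhs => rw [hw (ws K) l]
      ring
  ext m
  rw [key (m + 1), map_add, map_sum, map_sum, PowerSeries.coeff_X_pow_mul', if_neg (by omega),
    add_zero]
  have h1 : ∀ j : J, PowerSeries.coeff m ((PowerSeries.mk fun k => a (ws k) j) * g j l) =
      ∑ k ∈ Finset.range (m + 1), a (ws k) j * PowerSeries.coeff (m - k) (g j l) := by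
    intro j
    rw [PowerSeries.coeff_mul, Finset.Nat.sum_antidiagonal_eq_sum_range_succ_mk]
    refine Finset.sum_congr rfl fun k _ => ?_
    rw [PowerSeries.coeff_mk]
  simp only [h1]
  rw [Finset.sum_comm]
  refine Finset.sum_congr rfl fun k hk => ?_
  rw [Finset.mem_range] at hk
  rw [PowerSeries.coeff_X_pow_mul', if_pos (by omega), map_sum]
  refine Finset.sum_congr rfl fun j _ => ?_
  rw [PowerSeries.coeff_C_mul]

/-- Krull intersection and finiteness -/
theorem krull_fin {Ω' R W : Type*} [Field Ω'] [CommRing R] [IsNoetherianRing R] [IsLocalRing R]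
    [Algebra Ω' R] [AddCommGroup W] [Module R W] [Module Ω' W] [IsScalarTower Ω' R W]
    [Module.Finite R W] (I : Ideal R) (hI : I ≠ ⊤) (U : Submodule Ω' W) [FiniteDimensional Ω' U]
    (h : ∀ (K : ℕ) (w : W), ∃ u ∈ U, w - u ∈ (I ^ K • ⊤ : Submodule R W)) :
    ∃ K : ℕ, (I ^ K • ⊤ : Submodule R W) = ⊥ := by
  let f : ℕ →o (Submodule Ω' U)ᵒᵈ :=
    { toFun := fun K => OrderDual.toDual
        (((I ^ K • ⊤ : Submodule R W).restrictScalars Ω').comap U.subtype)
      monotone' := by
        intro K L hKL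
        refine OrderDual.toDual_le_toDual.mpr ?_
        refine Submodule.comap_mono ?_
        intro x hx
        exact Submodule.smul_mono_left (Ideal.pow_le_pow_right hKL) hx }
  obtain ⟨K, hK⟩ := IsArtinian.monotone_stabilizes f
  have hbot := Ideal.iInf_pow_smul_eq_bot_of_isLocalRing (M := W) I hI
  have hU : ∀ u ∈ U, u ∈ (I ^ K • ⊤ : Submodule R W) → u = 0 := by
    intro u hu huK
    have : u ∈ (⨅ i : ℕ, I ^ i • ⊤ : Submodule R W) := by
      rw [Submodule.mem_iInf]
      intro L
      rcases le_total K L with hL | hL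
      · have h1 : (⟨u, hu⟩ : U) ∈ OrderDual.ofDual (f K) := huK
        rw [hK L hL] at h1
        exact h1
      · exact Submodule.smul_mono_left (Ideal.pow_le_pow_right hL) huK
    rw [hbot] at this
    exact (Submodule.mem_bot R).mp this
  refine ⟨K, ?_⟩
  rw [eq_bot_iff, ← hbot]
  intro w hw
  rw [Submodule.mem_iInf]
  intro L
  obtain ⟨u, hu, hwu⟩ := h (max K L) w
  have h1 : w - u ∈ (I ^ K • ⊤ : Submodule R W) :=
    Submodule.smul_mono_left (Ideal.pow_le_pow_right (le_max_left K L)) hwu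
  have h2 : u ∈ (I ^ K • ⊤ : Submodule R W) := by
    have := Submodule.sub_mem _ hw h1
    rwa [sub_sub_cancel] at this
  have h3 := hU u hu h2
  rw [h3, sub_zero] at hwu
  exact Submodule.smul_mono_left (Ideal.pow_le_pow_right (le_max_right K L)) hwu

variable {Ω Ω' : Type u} [Field Ω] [Field Ω']

/-- iteration for the family: images of constant vectors -/
theorem fam_dec (ι : PowerSeries Ω →+* Ω') {n N B : Type} [Fintype N] [Fintype B]
    (b : B → n → P2 Ω) (G0 G1 G2 : N → n → P2 Ω)
    (h : ∀ v : n → P2 Ω, ∃ (c : B → Ω) (g : N → P2 Ω),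
      ∀ l, v l = ∑ β, cst (c β) * b β l + ∑ j, g j * G0 j l) (v : n → P2 Ω) :
    ∃ (c : B → Ω') (g : N → P2 Ω'), ∀ l, mapP (ι.comp PowerSeries.C) (v l) =
      ∑ β, cst (c β) * mapP (ι.comp PowerSeries.C) (b β l) +
      ∑ j, g j * (mapP (ι.comp PowerSeries.C) (G0 j l) +
        cst (ι PowerSeries.X) * mapP (ι.comp PowerSeries.C) (G1 j l) +
        cst (ι PowerSeries.X ^ 2) * mapP (ι.comp PowerSeries.C) (G2 j l)) := by
  obtain ⟨α, hα, hw⟩ := iter (R := P2 Ω) (n := n) (J := B ⊕ N)
    (Sum.elim (fun β l => PowerSeries.C (b β l))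
      (fun j l => PowerSeries.C (G0 j l) + PowerSeries.X * PowerSeries.C (G1 j l) +
        PowerSeries.X ^ 2 * PowerSeries.C (G2 j l)))
    (Sum.elim (fun _ => Set.range (algebraMap Ω (P2 Ω))) (fun _ => Set.univ))
    (by
      intro w
      obtain ⟨c, g, hcg⟩ := h fun l => PowerSeries.constantCoeff (w l)
      have hdiv : ∀ l, ∃ q, w l - (∑ β, PowerSeries.C (algebraMap Ω (P2 Ω) (c β)) *
          PowerSeries.C (b β l) + ∑ j, PowerSeries.C (g j) *
          (PowerSeries.C (G0 j l) + PowerSeries.X * PowerSeries.C (G1 j l) +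
        PowerSeries.X ^ 2 * PowerSeries.C (G2 j l))) = PowerSeries.X * q := by
        intro l
        have : (PowerSeries.X : PowerSeries (P2 Ω)) ∣ w l - (∑ β,
            PowerSeries.C (algebraMap Ω (P2 Ω) (c β)) *
          PowerSeries.C (b β l) + ∑ j, PowerSeries.C (g j) *
          (PowerSeries.C (G0 j l) + PowerSeries.X * PowerSeries.C (G1 j l) +
        PowerSeries.X ^ 2 * PowerSeries.C (G2 j l))) := by
          rw [PowerSeries.X_dvd_iff, map_sub, hcg l]
          simp [algebraMap_P2]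
        exact this
      choose q hq using hdiv
      refine ⟨Sum.elim (fun β => algebraMap Ω (P2 Ω) (c β)) g, q, ?_, ?_⟩
      · rintro (β | j)
        · exact ⟨c β, rfl⟩
        · exact Set.mem_univ _
      · intro l
        rw [Fintype.sum_sum_type]
        simp only [Sum.elim_inl, Sum.elim_inr]
        rw [← hq l]
        ring)
    (fun l => PowerSeries.C (v l))
  have hc : ∀ β : B, ∃ c : PowerSeries Ω,
      α (Sum.inl β) = PowerSeries.map (algebraMap Ω (P2 Ω)) c := by
    intro β
    choose c hc using fun k => hα (Sum.inl β) k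
    refine ⟨PowerSeries.mk c, ?_⟩
    ext1 k
    rw [PowerSeries.coeff_map, PowerSeries.coeff_mk, ← hc k]
  choose c hc using hc
  refine ⟨fun β => ι (c β), fun j => tauP ι (α (Sum.inr j)), fun l => ?_⟩
  have h1 := congrArg (tauP ι) (hw l)
  rw [tauP_C, Fintype.sum_sum_type] at h1
  have hX : tauP ι (PowerSeries.X : PowerSeries (P2 Ω)) = cst (ι PowerSeries.X) := by
    rw [← tauP_map, PowerSeries.map_X]
  simp only [Sum.elim_inl, Sum.elim_inr, map_add, map_mul, map_sum, map_pow, hX, tauP_C, hc,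
    tauP_map] at h1
  rw [h1]
  simp only [cst_mul, pow_two]

theorem finm : T_FINM.{u} := by
  classical
  intro Ω Ω' _ _ ι _ n N _ _ G0 G1 G2 hM
  obtain ⟨M, hM⟩ := hM
  let b : ((Fin M × Fin M) × n) → n → P2 Ω := fun q => Pi.single q.2
    (px Ω ^ (q.1.1 : ℕ) * py Ω ^ (q.1.2 : ℕ))
  have hdec : ∀ v : n → P2 Ω, ∃ (c : ((Fin M × Fin M) × n) → Ω) (g : N → P2 Ω),
      ∀ l, v l = ∑ β, cst (c β) * b β l + ∑ j, g j * G0 j l := by
    intro v
    choose q1 q2 hq using fun l => trunc_P2 M (v l)
    have h1 : px Ω ^ M • q1 + py Ω ^ M • q2 ∈ Submodule.span (P2 Ω) (Set.range G0) :=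
      Submodule.add_mem _ (hM q1).1 (hM q2).2
    obtain ⟨g, hg⟩ := (Submodule.mem_span_range_iff_exists_fun (P2 Ω)).mp h1
    refine ⟨fun q => cf q.1.1 q.1.2 (v q.2), g, fun l => ?_⟩
    have h2 : ∑ j, g j * G0 j l = px Ω ^ M * q1 l + py Ω ^ M * q2 l := by
      have := congrFun hg l
      simpa [Finset.sum_apply] using this
    rw [h2]
    have h3 : ∑ β : ((Fin M × Fin M) × n), cst (cf β.1.1 β.1.2 (v β.2)) * b β l =
        ∑ i ∈ Finset.range M, ∑ j ∈ Finset.range M,
          cst (cf i j (v l)) * px Ω ^ i * py Ω ^ j := by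
      rw [Fintype.sum_prod_type, Fintype.sum_prod_type, Finset.sum_range]
      refine Finset.sum_congr rfl fun i _ => ?_
      rw [Finset.sum_range]
      refine Finset.sum_congr rfl fun j _ => ?_
      rw [Finset.sum_eq_single l]
      · simp [b]; ring
      · intro l' _ hl'
        simp [b, Pi.single_eq_of_ne (Ne.symm hl')]
      · intro hl; exact absurd (Finset.mem_univ l) hl
    rw [h3, ← add_assoc]
    exact hq l
  -- the quotient
  set Gt : N → n → P2 Ω' := fun i => (mapP (ι.comp PowerSeries.C) ∘ G0 i) +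
      cst (ι PowerSeries.X) • (mapP (ι.comp PowerSeries.C) ∘ G1 i) +
      cst (ι PowerSeries.X ^ 2) • (mapP (ι.comp PowerSeries.C) ∘ G2 i) with hGt
  set S : Submodule (P2 Ω') (n → P2 Ω') := Submodule.span (P2 Ω') (Set.range Gt) with hS
  let U : Submodule Ω' ((n → P2 Ω') ⧸ S) := Submodule.span Ω' (Set.range fun β =>
    Submodule.Quotient.mk (p := S) (mapP (ι.comp PowerSeries.C) ∘ b β))
  have : FiniteDimensional Ω' U := FiniteDimensional.span_of_finite Ω' (Set.finite_range _)
  have hmk : ∀ (c : Ω') (w : n → P2 Ω'), Submodule.Quotient.mk (p := S) (cst c • w) =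
      c • Submodule.Quotient.mk (p := S) w := by
    intro c w
    rw [← algebraMap_P2, ← Submodule.Quotient.mk_smul, algebraMap_smul]
  have hconst : ∀ v : n → P2 Ω, Submodule.Quotient.mk (p := S)
      (mapP (ι.comp PowerSeries.C) ∘ v) ∈ U := by
    intro v
    obtain ⟨c, g, hcg⟩ := fam_dec ι b G0 G1 G2 hdec v
    have h1 : mapP (ι.comp PowerSeries.C) ∘ v =
        ∑ β, cst (c β) • (mapP (ι.comp PowerSeries.C) ∘ b β) + ∑ j, g j • Gt j := by
      funext l
      simp only [Function.comp_apply, hcg l, Pi.add_apply, Finset.sum_apply, Pi.smul_apply,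
        smul_eq_mul, hGt]
    rw [h1, Submodule.Quotient.mk_add]
    have h2 : Submodule.Quotient.mk (p := S) (∑ j, g j • Gt j) = 0 := by
      rw [Submodule.Quotient.mk_eq_zero]
      exact Submodule.sum_mem _ fun j _ => Submodule.smul_mem _ _
        (Submodule.subset_span ⟨j, rfl⟩)
    rw [h2, add_zero]
    have h3 : Submodule.Quotient.mk (p := S)
        (∑ β, cst (c β) • (mapP (ι.comp PowerSeries.C) ∘ b β)) =
        ∑ β, c β • Submodule.Quotient.mk (p := S) (mapP (ι.comp PowerSeries.C) ∘ b β) := by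
      rw [← Submodule.mkQ_apply, map_sum]
      refine Finset.sum_congr rfl fun β _ => ?_
      rw [Submodule.mkQ_apply, hmk]
    rw [h3]
    exact Submodule.sum_mem _ fun β _ => Submodule.smul_mem _ _
      (Submodule.subset_span ⟨β, rfl⟩)
  have hmono : ∀ (i j : ℕ) (l : n), Submodule.Quotient.mk (p := S)
      (Pi.single l (px Ω' ^ i * py Ω' ^ j)) ∈ U := by
    intro i j l
    have h1 := hconst (Pi.single l (px Ω ^ i * py Ω ^ j))
    have h2 : mapP (ι.comp PowerSeries.C) ∘ (Pi.single l (px Ω ^ i * py Ω ^ j) : n → P2 Ω) =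
        Pi.single l (px Ω' ^ i * py Ω' ^ j) := by
      funext l'
      by_cases hl : l' = l
      · subst hl
        simp [mapP_px, mapP_py]
      · simp [Pi.single_eq_of_ne hl]
    rwa [h2] at h1
  let I : Ideal (P2 Ω') := Ideal.span {px Ω', py Ω'}
  have hI : I ≠ ⊤ := by
    intro h
    have h1 : (1 : P2 Ω') ∈ I := by rw [h]; trivial
    obtain ⟨a, c, hac⟩ := Ideal.mem_span_pair.mp h1
    have := congrArg ev0 hac
    simp [ev0_px, ev0_py] at this
  obtain ⟨K, hK⟩ := krull_fin (Ω' := Ω') (R := P2 Ω') (W := (n → P2 Ω') ⧸ S) I hI U (by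
    intro K w
    obtain ⟨w, rfl⟩ := Submodule.Quotient.mk_surjective S w
    choose q1 q2 hq using fun l => trunc_P2 K (w l)
    refine ⟨Submodule.Quotient.mk (p := S) (∑ l, ∑ i ∈ Finset.range K, ∑ j ∈ Finset.range K,
      cst (cf i j (w l)) • Pi.single l (px Ω' ^ i * py Ω' ^ j)), ?_, ?_⟩
    · rw [← Submodule.mkQ_apply, map_sum]
      refine Submodule.sum_mem _ fun l _ => ?_
      rw [map_sum]
      refine Submodule.sum_mem _ fun i _ => ?_
      rw [map_sum]
      refine Submodule.sum_mem _ fun j _ => ?_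
      rw [Submodule.mkQ_apply, hmk]
      exact Submodule.smul_mem _ _ (hmono i j l)
    · rw [← Submodule.Quotient.mk_sub]
      have h1 : w - ∑ l, ∑ i ∈ Finset.range K, ∑ j ∈ Finset.range K,
          cst (cf i j (w l)) • (Pi.single l (px Ω' ^ i * py Ω' ^ j) : n → P2 Ω') =
          px Ω' ^ K • q1 + py Ω' ^ K • q2 := by
        funext l'
        simp only [Pi.sub_apply, Finset.sum_apply, Pi.smul_apply, Pi.add_apply, smul_eq_mul]
        rw [Finset.sum_eq_single l']
        · simp only [Pi.single_eq_same]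
          have h3 := hq l'
          rw [sub_eq_iff_eq_add]
          conv_lhs => rw [h3]
          simp only [mul_assoc]
          ring
        · intro l _ hl
          simp [Pi.single_eq_of_ne (Ne.symm hl)]
        · intro hl; exact absurd (Finset.mem_univ l') hl
      rw [h1, Submodule.Quotient.mk_add, Submodule.Quotient.mk_smul, Submodule.Quotient.mk_smul]
      refine Submodule.add_mem _ (Submodule.smul_mem_smul (Ideal.pow_mem_pow ?_ K) trivial)
        (Submodule.smul_mem_smul (Ideal.pow_mem_pow ?_ K) trivial)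
      · exact Ideal.subset_span (by simp)
      · exact Ideal.subset_span (by simp))
  refine ⟨K, fun ρ => ⟨?_, ?_⟩⟩
  · rw [← Submodule.Quotient.mk_eq_zero, Submodule.Quotient.mk_smul,
      ← Submodule.mem_bot (P2 Ω'), ← hK]
    exact Submodule.smul_mem_smul (Ideal.pow_mem_pow (Ideal.subset_span (by simp)) K) trivial
  · rw [← Submodule.Quotient.mk_eq_zero, Submodule.Quotient.mk_smul,
      ← Submodule.mem_bot (P2 Ω'), ← hK]
    exact Submodule.smul_mem_smul (Ideal.pow_mem_pow (Ideal.subset_span (by simp)) K) trivial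

end Pool.Agent.H76.HZ.FINM
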