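import Pool.Agent.H12.HS.Targets
import Pool.Agent.H12.HS.Basic

/-!
# MP_eb1332_ag, module FAM: generic algebra (bases, base change, splitting)
-/

namespace Pool.Agent.H76.HZ.FAM

open Pool.Agent.H12.HS

universe u

/-- base change of configurations -/
theorem cfg_bc {Λ V Ω W0 : Type u} [CommRing Λ] [CommRing V] [Algebra Λ V] [CommRing Ω]
    [CommRing W0] [Algebra Ω W0] (φ : Λ →+* Ω) (π : V →+* W0)
    (hπ : ∀ l, π (algebraMap Λ V l) = algebraMap Ω W0 (φ l)) {d : ℕ}
    (bV : Module.Basis (Fin d) Λ V) (b : Module.Basis (Fin d) Ω W0) (hb : ∀ j, π (bV j) = b j)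
    (p : Fin 3 → V) : (cfgOf bV p).map φ = cfgOf b (fun i => π (p i)) := by
  have key : ∀ (v : V) (j : Fin d), φ (bV.repr v j) = b.repr (π v) j := by
    intro v j
    have h1 : π v = ∑ j, φ (bV.repr v j) • b j := by
      conv_lhs => rw [← bV.sum_repr v]
      rw [map_sum]
      refine Finset.sum_congr rfl fun j _ => ?_
      rw [Algebra.smul_def, map_mul, hπ, hb, Algebra.smul_def]
    rw [h1, map_sum, Finset.sum_apply']
    simp [Finsupp.single_apply]
  apply Cfg.ext
  · funext i
    change (Algebra.leftMulMatrix bV (p i)).map φ = Algebra.leftMulMatrix b (π (p i))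
    ext a c
    rw [Matrix.map_apply, Algebra.leftMulMatrix_eq_repr_mul, Algebra.leftMulMatrix_eq_repr_mul,
      key, map_mul, hb]
  · funext a
    change φ (bV.repr 1 a) = b.repr 1 a
    rw [key, map_one]

/-- construction of a basis -/
theorem mk_basis {Λ V : Type u} [CommRing Λ] [CommRing V] [Algebra Λ V] {d : ℕ} (v : Fin d → V)
    (h1 : ∀ a : V, ∃ c : Fin d → Λ, a = ∑ j, algebraMap Λ V (c j) * v j)
    (h2 : ∀ c : Fin d → Λ, ∑ j, algebraMap Λ V (c j) * v j = 0 → c = 0) :
    ∃ b : Module.Basis (Fin d) Λ V, ∀ j, b j = v j := by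
  refine ⟨Module.Basis.mk (v := v) ?_ ?_, fun j => Module.Basis.mk_apply _ _ _⟩
  · rw [Fintype.linearIndependent_iff]
    intro g hg j
    have := h2 g (by simpa [Algebra.smul_def] using hg)
    exact congrFun this j
  · rintro a -
    obtain ⟨c, hc⟩ := h1 a
    rw [hc]
    refine Submodule.sum_mem _ fun j _ => ?_
    rw [← Algebra.smul_def]
    exact Submodule.smul_mem _ _ (Submodule.subset_span ⟨j, rfl⟩)

/-- base change of algebras -/
theorem bc {Λ V Ω' : Type u} [CommRing Λ] [CommRing V] [Algebra Λ V] [Field Ω'] (ι : Λ →+* Ω')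
    {d : ℕ} (bV : Module.Basis (Fin d) Λ V) :
    ∃ (W : Type u) (_ : CommRing W) (_ : Algebra Ω' W) (r : V →+* W),
      (∀ l, r (algebraMap Λ V l) = algebraMap Ω' W (ι l)) ∧
      (∃ bW : Module.Basis (Fin d) Ω' W, ∀ j, bW j = r (bV j)) ∧
      (∀ (B : Type u) [CommRing B] (g : Ω' →+* B) (h : V →+* B),
        (∀ l, g (ι l) = h (algebraMap Λ V l)) →
        ∃ u : W →+* B, (∀ c, u (algebraMap Ω' W c) = g c) ∧ ∀ v, u (r v) = h v) := by
  letI : Algebra Λ Ω' := ι.toAlgebra
  have halg : ∀ l, algebraMap Λ Ω' l = ι l := fun l => rfl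
  refine ⟨TensorProduct Λ Ω' V, inferInstance, inferInstance,
    (Algebra.TensorProduct.includeRight : V →ₐ[Λ] TensorProduct Λ Ω' V).toRingHom, ?_, ?_, ?_⟩
  · intro l
    change (Algebra.TensorProduct.includeRight : V →ₐ[Λ] TensorProduct Λ Ω' V)
      (algebraMap Λ V l) = _
    rw [AlgHom.commutes, ← halg, ← IsScalarTower.algebraMap_apply]
  · refine ⟨Algebra.TensorProduct.basis Ω' bV, fun j => ?_⟩
    rw [Algebra.TensorProduct.basis_apply]
    rfl
  · intro B _ g h hgh
    letI : Algebra Λ B := (g.comp ι).toAlgebra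
    let g' : Ω' →ₐ[Λ] B := { g with commutes' := fun l => rfl }
    let h' : V →ₐ[Λ] B := { h with commutes' := fun l => (hgh l).symm }
    refine ⟨(Algebra.TensorProduct.productMap g' h').toRingHom, ?_, ?_⟩
    · intro c
      change Algebra.TensorProduct.productMap g' h' (algebraMap Ω' (TensorProduct Λ Ω' V) c) = _
      rw [Algebra.TensorProduct.algebraMap_apply, Algebra.TensorProduct.productMap_apply_tmul,
        map_one, mul_one]
      rfl
    · intro v
      change Algebra.TensorProduct.productMap g' h' ((1 : Ω') ⊗ₜ[Λ] v) = _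
      rw [Algebra.TensorProduct.productMap_apply_tmul, map_one, one_mul]
      rfl

/-- images of adjoin -/
theorem adjoin_map {R A R' A' : Type u} [CommRing R] [CommRing A] [Algebra R A] [CommRing R']
    [CommRing A'] [Algebra R' A'] (φ : R →+* R') (r : A →+* A')
    (h : ∀ l, r (algebraMap R A l) = algebraMap R' A' (φ l)) (p : Fin 3 → A) (a : A)
    (ha : a ∈ Algebra.adjoin R (Set.range p)) :
    r a ∈ Algebra.adjoin R' (Set.range fun i => r (p i)) := by
  induction ha using Algebra.adjoin_induction with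
  | mem x hx =>
    obtain ⟨i, rfl⟩ := hx
    exact Algebra.subset_adjoin ⟨i, rfl⟩
  | algebraMap l =>
    rw [h]
    exact Subalgebra.algebraMap_mem _ _
  | add x y _ _ hx hy =>
    rw [map_add]; exact Subalgebra.add_mem _ hx hy
  | mul x y _ _ hx hy =>
    rw [map_mul]; exact Subalgebra.mul_mem _ hx hy

end Pool.Agent.H76.HZ.FAM
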